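import Mathlib
import Pool.Prelude.Def_F_c31e40fa
import Pool.Agent.V1186.CN.Rn5

/-!
# The periods of renormalizations with bounds near typical unicritical polynomials

Let `f_c (z) = z ^ d + c` (`d = 2` for the Mandelbrot set). If `f_c` is renormalizable of period `p`
with bounds `C`, then the derivative of the `p`-th iterate at the critical value is at most
`2 d C ^ d`. Let `c₀` be a parameter of the Multibrot set whose critical value has the Lyapunov exponent
`χ > 0`; this is so at the landing point of almost every parameter ray, with `χ = log d`. Then every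
parameter `c` which is renormalizable of a large period `p` with bounds `exp (η p)`, where `η d < χ`
(in particular: with bounds which do not depend on `p`), is at distance at least `exp (-(χ + ε) p)` from
`c₀`: near `c₀` there is a long gap in the periods of the renormalizations with bounds. This is sharp: for
all large `n` there is a parameter at distance at most `exp (-(χ - ε) n)` which is renormalizable of
period `n` or `n + 1` with a universal bound.
-/

set_option autoImplicit false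

open Filter Metric Topology

namespace Pool.Agent.Results.MP_b511e9_an.RenormalizationGap

open Pool.Agent.H713R2 (IsExteriorMap)

/-- The polynomial `z ^ d + c`. -/
def f (d : ℕ) (c : ℂ) : ℂ → ℂ := fun z => z ^ d + c

/-- The Multibrot set `M_d`. -/
def M (d : ℕ) : Set ℂ := N62a1eb23.multibrotSet d

/-- `g` is proper of degree at most `d` from the bounded open set `U` onto a set which contains the
closure of `U`. Polynomial-like maps of degree `d` have this property. -/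
def PolynomialLike (d : ℕ) (g : ℂ → ℂ) (U : Set ℂ) : Prop :=
  IsOpen U ∧ Bornology.IsBounded U ∧ closure U ⊆ g '' U ∧
    (∀ K ⊆ g '' U, IsCompact K → IsCompact {z | z ∈ U ∧ g z ∈ K}) ∧
    ∀ w ∈ g '' U, {z | z ∈ U ∧ g z = w}.encard ≤ d

/-- `z ↦ z ^ d + c` is renormalizable of period `p` with bounds `C`: `U` contains the discs of some
radius `ρ` about the points `f^[n p] 0`, and its image has diameter at most `C ρ`. -/
def Bounds (d : ℕ) (C : ℝ) (c : ℂ) (p : ℕ) : Prop :=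
  ∃ (U : Set ℂ) (ρ : ℝ), PolynomialLike d ((f d c)^[p]) U ∧ 0 < ρ ∧
    (∀ n : ℕ, ball ((f d c)^[n * p] 0) ρ ⊆ U) ∧
    ∀ z ∈ U, ∀ z' ∈ U, ‖(f d c)^[p] z - (f d c)^[p] z'‖ ≤ C * ρ

/-- `c₀` lies in the Multibrot set and the critical value `c₀` has the Lyapunov exponent `χ > 0`. -/
def Lyapunov (d : ℕ) (χ : ℝ) (c₀ : ℂ) : Prop :=
  0 < χ ∧ c₀ ∈ M d ∧
    Tendsto (fun n : ℕ => Real.log ‖deriv ((f d c₀)^[n]) c₀‖ / n) atTop (𝓝 χ)

theorem deriv_le {d : ℕ} (hd : 2 ≤ d) {C : ℝ} {c : ℂ} {p : ℕ} (hp : 1 ≤ p) (h : Bounds d C c p) :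
    ‖deriv ((f d c)^[p]) c‖ ≤ 2 * d * C ^ d := by
  obtain ⟨U, ρ, hU, hρ, hball, hdiam⟩ := h
  obtain ⟨q, rfl⟩ : ∃ q, p = q + 1 := ⟨p - 1, by omega⟩
  have h0 := hball 0
  rw [zero_mul, Function.iterate_zero, id_eq] at h0
  exact Pool.Agent.V1186.CN.ren_deriv hd hρ (subset_closure.trans hU.2.2.1) h0 hdiam

theorem main {d : ℕ} (hd : 2 ≤ d) {χ : ℝ} {c₀ : ℂ} (h : Lyapunov d χ c₀) {η ε : ℝ}
    (hη : η * d < χ) (hε : 0 < ε) : ∀ᶠ p : ℕ in atTop, ∀ c : ℂ, Bounds d (Real.exp (η * p)) c p →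
      Real.exp (-(χ + ε) * p) < ‖c - c₀‖ := by
  have hL : Pool.Agent.Y298.CA.Lyap d χ c₀ := h
  filter_upwards [Pool.Agent.V1186.CN.deriv_large hd hL hη hε, eventually_ge_atTop 1]
    with p h1 hp c hc
  by_contra hcon
  have h2 := h1 c (not_lt.1 hcon)
  have h3 := deriv_le hd hp hc
  have h4 : Real.exp (η * p) ^ d = Real.exp (η * d * p) := by
    rw [← Real.exp_nat_mul]
    congr 1
    ring
  rw [h4] at h3
  exact absurd h2 (not_lt.2 h3)

theorem Bounds.mono {d : ℕ} {C C' : ℝ} {c : ℂ} {p : ℕ} (h : Bounds d C c p) (hC : C ≤ C') :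
    Bounds d C' c p := by
  obtain ⟨U, ρ, hU, hρ, hball, hdiam⟩ := h
  exact ⟨U, ρ, hU, hρ, hball, fun z hz z' hz' =>
    (hdiam z hz z' hz').trans (mul_le_mul_of_nonneg_right hC hρ.le)⟩

/-- The parameters which are renormalizable of period `n` or `n + 1` with bounds `K`. -/
def Ren (d : ℕ) (K : ℝ) (n : ℕ) : Set ℂ := {c | Bounds d K c n ∨ Bounds d K c (n + 1)}

/-- the exact rate -/
theorem rate {d : ℕ} (hd : 2 ≤ d) {χ : ℝ} {c₀ : ℂ} (h : Lyapunov d χ c₀) {C K : ℝ} (hK : C ≤ K)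
    (hex : ∀ ε : ℝ, 0 < ε → ∀ᶠ n : ℕ in atTop, ∃ (p : ℕ) (c : ℂ), (p = n ∨ p = n + 1) ∧
      (f d c)^[p] 0 = 0 ∧ Bounds d C c p ∧ ‖c - c₀‖ ≤ Real.exp (-(χ - ε) * p)) :
    Tendsto (fun n : ℕ => -Real.log (infDist c₀ (Ren d K n)) / n) atTop (𝓝 χ) := by
  have hχ : 0 < χ := h.1
  have hd0 : (0 : ℝ) < d := by exact_mod_cast (by omega : 0 < d)
  rw [Metric.tendsto_atTop']
  intro ε hε
  set δ : ℝ := min (ε / 3) χ with hδ
  have hδ0 : 0 < δ := by positivity
  have hδ1 : δ ≤ ε / 3 := min_le_left _ _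
  have hδ2 : δ ≤ χ := min_le_right _ _
  have hη : χ / (2 * d) * d < χ := by
    have : χ / (2 * d) * d = χ / 2 := by field_simp
    linarith
  have hη0 : 0 < χ / (2 * d) := by positivity
  have e1 := main hd h hη hδ0
  have e2 : ∀ᶠ p : ℕ in atTop, K ≤ Real.exp (χ / (2 * d) * p) := by
    have h1 : Tendsto (fun p : ℕ => Real.exp (χ / (2 * d) * p)) atTop atTop :=
      Real.tendsto_exp_atTop.comp (tendsto_natCast_atTop_atTop.const_mul_atTop hη0)
    exact h1.eventually_ge_atTop K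
  have e12 := e1.and e2
  have e3 : ∀ᶠ n : ℕ in atTop, χ + δ < ε / 3 * n :=
    (tendsto_natCast_atTop_atTop.const_mul_atTop (by positivity)).eventually_gt_atTop _
  have e4 : ∀ᶠ n : ℕ in atTop, dist (-Real.log (infDist c₀ (Ren d K n)) / n) χ < ε := by
    filter_upwards [e12, (tendsto_add_atTop_nat 1).eventually e12, hex δ hδ0, e3,
      eventually_ge_atTop 1] with n h1 h2 h3 h4 hn
    have hn0 : (0 : ℝ) < n := by exact_mod_cast hn
    obtain ⟨p, c, hp, -, hc, hdist⟩ := h3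
    have hmem : c ∈ Ren d K n := by
      rcases hp with rfl | rfl
      · exact Or.inl (hc.mono hK)
      · exact Or.inr (hc.mono hK)
    have hlow : Real.exp (-((χ + δ) * (n + 1))) ≤ infDist c₀ (Ren d K n) := by
      rw [Metric.le_infDist ⟨c, hmem⟩]
      rintro y (hy | hy)
      · rw [dist_comm, dist_eq_norm]
        refine le_trans (Real.exp_le_exp.2 ?_) (h1.1 y (hy.mono h1.2)).le
        nlinarith
      · rw [dist_comm, dist_eq_norm]
        refine le_trans (Real.exp_le_exp.2 ?_) (h2.1 y (hy.mono h2.2)).le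
        push_cast
        linarith
    have hup : infDist c₀ (Ren d K n) ≤ Real.exp (-((χ - δ) * n)) := by
      refine (infDist_le_dist_of_mem hmem).trans ?_
      rw [dist_comm, dist_eq_norm]
      refine hdist.trans (Real.exp_le_exp.2 ?_)
      have hpn : (n : ℝ) ≤ p := by
        rcases hp with rfl | rfl
        · exact le_rfl
        · push_cast
          linarith
      have : 0 ≤ χ - δ := by linarith
      nlinarith
    have hD0 : 0 < infDist c₀ (Ren d K n) := lt_of_lt_of_le (Real.exp_pos _) hlow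
    have h5 : -((χ + δ) * (n + 1)) ≤ Real.log (infDist c₀ (Ren d K n)) :=
      (Real.le_log_iff_exp_le hD0).2 hlow
    have h6 : Real.log (infDist c₀ (Ren d K n)) ≤ -((χ - δ) * n) :=
      (Real.log_le_iff_le_exp hD0).2 hup
    rw [Real.dist_eq, abs_lt]
    constructor
    · rw [lt_sub_iff_add_lt, lt_div_iff₀ hn0]
      nlinarith
    · rw [sub_lt_iff_lt_add, div_lt_iff₀ hn0]
      nlinarith
  obtain ⟨N, hN⟩ := eventually_atTop.1 e4
  exact ⟨N, fun n hn => hN n hn.le⟩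

/-- **Renormalizations with bounds near a parameter with a Lyapunov exponent.** -/
theorem result (d : ℕ) (hd : 2 ≤ d) :
    -- (A) the derivative at the critical value
    (∀ (C : ℝ) (c : ℂ) (p : ℕ), 1 ≤ p → Bounds d C c p →
      ‖deriv ((f d c)^[p]) c‖ ≤ 2 * d * C ^ d) ∧
    -- (B) the distance to the renormalizable parameters, lower bound
    (∀ (χ : ℝ) (c₀ : ℂ), Lyapunov d χ c₀ → ∀ η ε : ℝ, η * d < χ → 0 < ε →
      ∀ᶠ p : ℕ in atTop, ∀ c : ℂ, Bounds d (Real.exp (η * p)) c p →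
        Real.exp (-(χ + ε) * p) < ‖c - c₀‖) ∧
    -- (C) the exact rate, with universal bounds
    (∃ C : ℝ, 1 ≤ C ∧ ∀ (χ : ℝ) (c₀ : ℂ), Lyapunov d χ c₀ →
      (∀ ε : ℝ, 0 < ε → ∀ᶠ n : ℕ in atTop, ∃ (p : ℕ) (c : ℂ), (p = n ∨ p = n + 1) ∧
        (f d c)^[p] 0 = 0 ∧ Bounds d C c p ∧ ‖c - c₀‖ ≤ Real.exp (-(χ - ε) * p)) ∧
      ∀ K : ℝ, C ≤ K →
        Tendsto (fun n : ℕ => -Real.log (infDist c₀ (Ren d K n)) / n) atTop (𝓝 χ)) ∧
    -- (D) almost every parameter ray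
    (∃ ψ : ℂ → ℂ, IsExteriorMap (M d) ψ) ∧
    ∀ ψ : ℂ → ℂ, IsExteriorMap (M d) ψ →
      ∀ᵐ θ : ℝ, ∃ c₀ ∈ frontier (M d),
        Tendsto (fun r : ℝ => ψ (r * Complex.exp (θ * Complex.I))) (𝓝[>] 1) (𝓝 c₀) ∧
        Lyapunov d (Real.log d) c₀ := by
  refine ⟨fun C c p hp h => deriv_le hd hp h, fun χ c₀ h η ε hη hε => main hd h hη hε, ?_, ?_⟩
  · obtain ⟨C, hC, H⟩ := Pool.Agent.V1186.CN.ren_ex (d := d) hd
    refine ⟨C, hC, fun χ c₀ h => ?_⟩
    have hL : Pool.Agent.Y298.CA.Lyap d χ c₀ := h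
    have h1 : ∀ ε : ℝ, 0 < ε → ∀ᶠ n : ℕ in atTop, ∃ (p : ℕ) (c : ℂ), (p = n ∨ p = n + 1) ∧
        (f d c)^[p] 0 = 0 ∧ Bounds d C c p ∧ ‖c - c₀‖ ≤ Real.exp (-(χ - ε) * p) :=
      fun ε hε => H χ c₀ hL ε hε
    exact ⟨h1, fun K hK => rate hd h hK h1⟩
  obtain ⟨β, hβ⟩ := Pool.Agent.H713R2.exists_beta (d := d) hd
  refine ⟨⟨_, Pool.Agent.H713R2.exteriorMap_of_beta hβ⟩, ?_⟩
  intro ψ hψ
  filter_upwards [Pool.Agent.Y272.TY.ae_neg' (Pool.Agent.Y272.TY.typical_all hd hβ)] with θ hθ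
  obtain ⟨c₀, A, R, h⟩ := hθ
  obtain ⟨h1, h2, h3⟩ := Pool.Agent.Y298.CA.lyap_of_typ hd hβ h
  exact ⟨c₀, h.frontier hd hβ, h.tendsto_psi hβ hψ, h1, h2, h3⟩

end Pool.Agent.Results.MP_b511e9_an.RenormalizationGap
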